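import Mathlib

/-!
Definitions for the Bridge Theorem: topological entropy rates of an action of a monoid `S` on a
compact abelian group `K` by continuous endomorphisms, and algebraic entropy rates of the dual
action. The group `K` and its group of characters are written multiplicatively.
-/

set_option autoImplicit false

open Set Filter Topology

universe u v w

namespace Pool.Agent.V7H48.BT

section defs

variable {S : Type u} {K : Type v}

/-- The join of the covers `γ(s)⁻¹(𝒰)`, `s ∈ F`: it consists of the sets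
`{x | γ(s) x ∈ c s for all s ∈ F}` with `c s ∈ 𝒰`. -/
def joinCover [SMul S K] (F : Finset S) (𝒰 : Set (Set K)) : Set (Set K) :=
  {V | ∃ c : S → Set K, (∀ s ∈ F, c s ∈ 𝒰) ∧ V = {x | ∀ s ∈ F, s • x ∈ c s}}

/-- The least number of members of a finite subcover of `𝒱`. -/
noncomputable def coverNum (𝒱 : Set (Set K)) : ℕ :=
  sInf {n | ∃ T : Finset (Set K), (T : Set (Set K)) ⊆ 𝒱 ∧ ⋃₀ (T : Set (Set K)) = univ ∧
    T.card = n}

/-- finite open covers -/
structure IsFiniteOpenCover [TopologicalSpace K] (𝒰 : Set (Set K)) : Prop where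
  finite : 𝒰.Finite
  isOpen : ∀ U ∈ 𝒰, IsOpen U
  cover : ⋃₀ 𝒰 = univ

variable [Monoid S] [CommGroup K] [TopologicalSpace K] [MulDistribMulAction S K]
  [ContinuousConstSMul S K]

/-- The dual right action on the characters: `χ · s = χ ∘ γ(s)`. -/
noncomputable def dualAct (s : S) (χ : K →ₜ* Circle) : K →ₜ* Circle :=
  ⟨χ.toMonoidHom.comp (MulDistribMulAction.toMonoidHom K s),
    χ.continuous_toFun.comp (continuous_const_smul s)⟩

/-- The product set (sum set, in additive notation) of the sets `X · s`, `s ∈ F`. -/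
def trajectory (F : Finset S) (X : Finset (K →ₜ* Circle)) : Set (K →ₜ* Circle) :=
  {ψ | ∃ c : S → (K →ₜ* Circle), (∀ s ∈ F, c s ∈ X) ∧ ψ = ∏ s ∈ F, dualAct s (c s)}

/-- the number `log N(𝒰_F) / |F|` -/
noncomputable def topRate (F : Finset S) (𝒰 : Set (Set K)) : ℝ :=
  Real.log (coverNum (joinCover F 𝒰)) / F.card

/-- the number `log |T_F(X)| / |F|` -/
noncomputable def algRate (F : Finset S) (X : Finset (K →ₜ* Circle)) : ℝ :=
  Real.log (trajectory F X).ncard / F.card

variable (K) in
/-- The supremum over all finite open covers `𝒰` of the upper limit of `log N(𝒰_{F i}) / |F i|`. -/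
noncomputable def topEntropySup {ι : Type w} (F : ι → Finset S) (l : Filter ι) : EReal :=
  ⨆ 𝒰 : {𝒰 : Set (Set K) // IsFiniteOpenCover 𝒰},
    limsup (fun i => ((topRate (F i) 𝒰.1 : ℝ) : EReal)) l

variable (K) in
/-- The supremum over all finite open covers `𝒰` of the lower limit of `log N(𝒰_{F i}) / |F i|`. -/
noncomputable def topEntropyInf {ι : Type w} (F : ι → Finset S) (l : Filter ι) : EReal :=
  ⨆ 𝒰 : {𝒰 : Set (Set K) // IsFiniteOpenCover 𝒰},
    liminf (fun i => ((topRate (F i) 𝒰.1 : ℝ) : EReal)) l

variable (K) in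
/-- The supremum over all nonempty finite sets `X` of characters of the upper limit of
`log |T_{F i}(X)| / |F i|`. -/
noncomputable def algEntropySup {ι : Type w} (F : ι → Finset S) (l : Filter ι) : EReal :=
  ⨆ X : {X : Finset (K →ₜ* Circle) // X.Nonempty},
    limsup (fun i => ((algRate (F i) X.1 : ℝ) : EReal)) l

variable (K) in
/-- The supremum over all nonempty finite sets `X` of characters of the lower limit of
`log |T_{F i}(X)| / |F i|`. -/
noncomputable def algEntropyInf {ι : Type w} (F : ι → Finset S) (l : Filter ι) : EReal :=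
  ⨆ X : {X : Finset (K →ₜ* Circle) // X.Nonempty},
    liminf (fun i => ((algRate (F i) X.1 : ℝ) : EReal)) l

variable (K) in
/-- `h` is the topological entropy `h_top(γ)` computed along the net `(F i)`: for every finite open
cover `𝒰` the limit `η 𝒰` of `log N(𝒰_{F i}) / |F i|` exists, and `h` is the supremum of the
numbers `η 𝒰`. -/
def HasTopEntropy {ι : Type w} (F : ι → Finset S) (l : Filter ι) (h : EReal) : Prop :=
  ∃ η : {𝒰 : Set (Set K) // IsFiniteOpenCover 𝒰} → ℝ,
    (∀ 𝒰, Tendsto (fun i => topRate (F i) 𝒰.1) l (𝓝 (η 𝒰))) ∧ h = ⨆ 𝒰, ((η 𝒰 : ℝ) : EReal)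

variable (K) in
/-- `h` is the algebraic entropy `h_alg` of the dual action computed along the net `(F i)`: for every
nonempty finite set `X` of characters the limit `η X` of `log |T_{F i}(X)| / |F i|` exists, and `h`
is the supremum of the numbers `η X`. -/
def HasAlgEntropy {ι : Type w} (F : ι → Finset S) (l : Filter ι) (h : EReal) : Prop :=
  ∃ η : {X : Finset (K →ₜ* Circle) // X.Nonempty} → ℝ,
    (∀ X, Tendsto (fun i => algRate (F i) X.1) l (𝓝 (η X))) ∧ h = ⨆ X, ((η X : ℝ) : EReal)

end defs

end Pool.Agent.V7H48.BT
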