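import Mathlib
import Pool.Agent.V7H48.BT.Defs

/-! Bowen balls and their Haar measure. -/

set_option autoImplicit false
set_option linter.unusedSectionVars false

open Set Filter Topology MeasureTheory
open scoped Pointwise

universe u v w

namespace Pool.Agent.V7H48.BT

variable {S : Type u} {K : Type v} [Monoid S] [CommGroup K] [TopologicalSpace K]
  [MulDistribMulAction S K] [ContinuousConstSMul S K]

/-- Bowen balls -/
def bowen (F : Finset S) (U : Set K) : Set K := {x | ∀ s ∈ F, s • x ∈ U}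

omit [TopologicalSpace K] [ContinuousConstSMul S K] in
theorem bowen_mono (F : Finset S) {U V : Set K} (h : U ⊆ V) : bowen F U ⊆ bowen F V :=
  fun _ hx s hs => h (hx s hs)

omit [TopologicalSpace K] [ContinuousConstSMul S K] in
theorem one_mem_bowen (F : Finset S) {U : Set K} (h : (1 : K) ∈ U) : (1 : K) ∈ bowen F U :=
  fun s _ => by rwa [smul_one]

theorem isOpen_bowen (F : Finset S) {U : Set K} (h : IsOpen U) : IsOpen (bowen F U) := by
  have : bowen F U = ⋂ s ∈ F, (fun x => s • x) ⁻¹' U := by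
    ext x
    simp [bowen]
  rw [this]
  exact isOpen_biInter_finset fun s _ => h.preimage (continuous_const_smul s)

theorem isOpen_set (F : Finset S) {c : S → Set K} (h : ∀ s ∈ F, IsOpen (c s)) :
    IsOpen {x : K | ∀ s ∈ F, s • x ∈ c s} := by
  have : {x : K | ∀ s ∈ F, s • x ∈ c s} = ⋂ s ∈ F, (fun x => s • x) ⁻¹' (c s) := by
    ext x
    simp
  rw [this]
  exact isOpen_biInter_finset fun s hs => (h s hs).preimage (continuous_const_smul s)

/-- the subcover of least cardinality -/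
theorem exists_min_cover [CompactSpace K] (F : Finset S) {𝒰 : Set (Set K)}
    (h𝒰 : IsFiniteOpenCover 𝒰) :
    ∃ T : Finset (Set K), (T : Set (Set K)) ⊆ joinCover F 𝒰 ∧ ⋃₀ (T : Set (Set K)) = univ ∧
      T.card = coverNum (joinCover F 𝒰) := by
  classical
  apply Nat.sInf_mem (s := {n | ∃ T : Finset (Set K), (T : Set (Set K)) ⊆ joinCover F 𝒰 ∧
    ⋃₀ (T : Set (Set K)) = univ ∧ T.card = n})
  have hex : ∀ x : K, ∃ V ∈ joinCover F 𝒰, x ∈ V := by
    intro x
    have h1 : ∀ s : S, ∃ U ∈ 𝒰, s • x ∈ U := by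
      intro s
      have : s • x ∈ ⋃₀ 𝒰 := by rw [h𝒰.cover]; trivial
      exact this
    choose c hc hcx using h1
    exact ⟨_, ⟨c, fun s _ => hc s, rfl⟩, fun s _ => hcx s⟩
  choose V hV hxV using hex
  obtain ⟨t, ht⟩ := isCompact_univ.elim_finite_subcover V
    (by
      intro x
      obtain ⟨c, hc, hcV⟩ := hV x
      rw [hcV]
      exact isOpen_set F fun s hs => h𝒰.isOpen _ (hc s hs))
    (fun x _ => mem_iUnion.2 ⟨x, hxV x⟩)
  refine ⟨_, t.image V, ?_, ?_, rfl⟩
  · intro A hA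
    rw [Finset.mem_coe, Finset.mem_image] at hA
    obtain ⟨x, -, rfl⟩ := hA
    exact hV x
  · rw [eq_univ_iff_forall]
    intro x
    obtain ⟨i, hi, hx⟩ := mem_iUnion₂.1 (ht (mem_univ x))
    exact ⟨V i, by rw [Finset.mem_coe]; exact Finset.mem_image_of_mem _ hi, hx⟩

theorem coverNum_le {𝒱 : Set (Set K)} (T : Finset (Set K)) (h1 : (T : Set (Set K)) ⊆ 𝒱)
    (h2 : ⋃₀ (T : Set (Set K)) = univ) : coverNum 𝒱 ≤ T.card :=
  Nat.sInf_le ⟨T, h1, h2, rfl⟩

variable [IsTopologicalGroup K] [MeasurableSpace K] [BorelSpace K] (μ : Measure K)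
  [μ.IsMulLeftInvariant] [IsProbabilityMeasure μ]

/-- sets with small differences -/
theorem measure_le_of_diff (F : Finset S) {U : Set K} {A : Set K}
    (h : ∀ x ∈ A, ∀ y ∈ A, ∀ s ∈ F, s • (x⁻¹ * y) ∈ U) : μ A ≤ μ (bowen F U) := by
  rcases A.eq_empty_or_nonempty with rfl | ⟨x, hx⟩
  · simp
  · have h1 : A ⊆ (fun y => x⁻¹ * y) ⁻¹' (bowen F U) := fun y hy s hs => h x hx y hy s hs
    calc μ A ≤ μ ((fun y => x⁻¹ * y) ⁻¹' (bowen F U)) := measure_mono h1
      _ = μ (bowen F U) := measure_preimage_mul μ x⁻¹ _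

/-- lower bound for the covering numbers -/
theorem one_le_coverNum_mul [CompactSpace K] (F : Finset S) {𝒰 : Set (Set K)}
    (h𝒰 : IsFiniteOpenCover 𝒰) {U : Set K} (hU : ∀ V ∈ 𝒰, ∀ x ∈ V, ∀ y ∈ V, x⁻¹ * y ∈ U) :
    1 ≤ (coverNum (joinCover F 𝒰) : ℝ) * μ.real (bowen F U) := by
  obtain ⟨T, hT, hTu, hTc⟩ := exists_min_cover F h𝒰
  have h1 : μ univ ≤ ∑ A ∈ T, μ A := by
    have : (univ : Set K) ⊆ ⋃ A ∈ T, A := by
      intro x _
      have hx : x ∈ ⋃₀ (T : Set (Set K)) := by rw [hTu]; trivial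
      obtain ⟨A, hA, hxA⟩ := hx
      exact mem_iUnion₂.2 ⟨A, hA, hxA⟩
    exact (measure_mono this).trans (measure_biUnion_finset_le T id)
  have h2 : ∑ A ∈ T, μ A ≤ ∑ A ∈ T, μ (bowen F U) := by
    apply Finset.sum_le_sum
    intro A hA
    obtain ⟨c, hc, rfl⟩ := hT (Finset.mem_coe.2 hA)
    apply measure_le_of_diff μ F
    intro x hx y hy s hs
    rw [smul_mul', smul_inv']
    exact hU (c s) (hc s hs) _ (hx s hs) _ (hy s hs)
  rw [measure_univ] at h1
  rw [Finset.sum_const, hTc, nsmul_eq_mul] at h2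
  have h3 := h1.trans h2
  have h4 : (1 : ℝ) ≤ ((coverNum (joinCover F 𝒰) : ENNReal) * μ (bowen F U)).toReal := by
    rw [← ENNReal.toReal_one]
    exact ENNReal.toReal_mono (ENNReal.mul_ne_top (ENNReal.natCast_ne_top _) (measure_ne_top μ _)) h3
  rw [ENNReal.toReal_mul, ENNReal.toReal_natCast] at h4
  exact h4

/-- upper bound for the covering numbers -/
theorem coverNum_mul_le_one [μ.IsOpenPosMeasure] (F : Finset S) {𝒰 : Set (Set K)}
    {V W : Set K} (hV : IsOpen V) (h1V : (1 : K) ∈ V)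
    (hVW : ∀ x ∈ V, ∀ y ∈ V, x * y⁻¹ ∈ W) (hW : ∀ x : K, ∃ U ∈ 𝒰, ∀ w ∈ W, x * w ∈ U) :
    (coverNum (joinCover F 𝒰) : ℝ) * μ.real (bowen F V) ≤ 1 := by
  classical
  set B := bowen F V with hB
  have hBo : IsOpen B := isOpen_bowen F hV
  have hBpos : 0 < μ.real B := by
    have : 0 < μ B := hBo.measure_pos μ ⟨1, one_mem_bowen F h1V⟩
    exact ENNReal.toReal_pos this.ne' (measure_ne_top μ _)
  have hBx : ∀ x : K, MeasurableSet ((fun y => x⁻¹ * y) ⁻¹' B) := fun x =>
    (hBo.preimage (continuous_const_mul x⁻¹)).measurableSet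
  let P : Set ℕ := {n | ∃ E : Finset K, E.card = n ∧
    (E : Set K).PairwiseDisjoint (fun x => (fun y => x⁻¹ * y) ⁻¹' B)}
  have hP : ∀ E : Finset K, (E : Set K).PairwiseDisjoint (fun x => (fun y => x⁻¹ * y) ⁻¹' B) →
      (E.card : ℝ) * μ.real B ≤ 1 := by
    intro E hE
    have h1 : μ.real (⋃ x ∈ E, (fun y => x⁻¹ * y) ⁻¹' B) =
        ∑ x ∈ E, μ.real ((fun y => x⁻¹ * y) ⁻¹' B) :=
      measureReal_biUnion_finset hE (fun x _ => hBx x)
    have h2 : ∀ x : K, μ.real ((fun y => x⁻¹ * y) ⁻¹' B) = μ.real B := by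
      intro x
      simp only [Measure.real]
      rw [measure_preimage_mul]
    simp only [h2, Finset.sum_const, nsmul_eq_mul] at h1
    rw [← h1]
    exact measureReal_le_one
  have hP0 : P.Nonempty := ⟨0, ∅, rfl, by simp⟩
  have hPb : BddAbove P := by
    refine ⟨⌊(μ.real B)⁻¹⌋₊, ?_⟩
    rintro n ⟨E, rfl, hE⟩
    apply Nat.le_floor
    have := hP E hE
    rw [← one_div, le_div_iff₀ hBpos]
    exact this
  obtain ⟨E, hEc, hE⟩ := Nat.sSup_mem hP0 hPb
  have hmax : ∀ y : K, ∃ x ∈ E, ∃ z : K, x⁻¹ * z ∈ B ∧ y⁻¹ * z ∈ B := by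
    intro y
    by_contra hcon
    push Not at hcon
    have hyE : y ∉ E := by
      intro hy
      exact hcon y hy y (by rw [inv_mul_cancel]; exact one_mem_bowen F h1V)
        (by rw [inv_mul_cancel]; exact one_mem_bowen F h1V)
    have h1 : E.card + 1 ∈ P := by
      refine ⟨insert y E, Finset.card_insert_of_notMem hyE, ?_⟩
      rw [Finset.coe_insert]
      apply hE.insert
      intro x hx _
      rw [Set.disjoint_left]
      intro z hz1 hz2
      exact hcon x hx z hz2 hz1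
    have h2 := le_csSup hPb h1
    rw [← hEc] at h2
    omega
  have hcov : ∀ x : K, ∃ A ∈ joinCover F 𝒰, ∀ z : K, (∀ s ∈ F, s • (x⁻¹ * z) ∈ W) → z ∈ A := by
    intro x
    choose c hc hcW using fun s : S => hW (s • x)
    refine ⟨_, ⟨c, fun s _ => hc s, rfl⟩, ?_⟩
    intro z hz s hs
    have h1 := hcW s _ (hz s hs)
    rwa [← smul_mul', mul_inv_cancel_left] at h1
  choose A hA hzA using hcov
  have hle : coverNum (joinCover F 𝒰) ≤ E.card := by
    refine (coverNum_le (E.image A) ?_ ?_).trans Finset.card_image_le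
    · intro V' hV'
      rw [Finset.mem_coe, Finset.mem_image] at hV'
      obtain ⟨x, -, rfl⟩ := hV'
      exact hA x
    · rw [eq_univ_iff_forall]
      intro y
      obtain ⟨x, hx, z, hz1, hz2⟩ := hmax y
      refine ⟨A x, by rw [Finset.mem_coe]; exact Finset.mem_image_of_mem _ hx, ?_⟩
      apply hzA x y
      intro s hs
      have h1 := hVW _ (hz1 s hs) _ (hz2 s hs)
      rw [← smul_inv', ← smul_mul'] at h1
      have h2 : x⁻¹ * z * (y⁻¹ * z)⁻¹ = x⁻¹ * y := by
        rw [mul_inv, inv_inv]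
        rw [mul_assoc, mul_comm y z⁻¹, mul_inv_cancel_left]
      rwa [h2] at h1
  calc (coverNum (joinCover F 𝒰) : ℝ) * μ.real B ≤ (E.card : ℝ) * μ.real B := by
        apply mul_le_mul_of_nonneg_right _ hBpos.le
        exact_mod_cast hle
    _ ≤ 1 := hP E hE

/-- Bowen balls of a subset: if `C` translates of `U` cover `K`, then adding the conditions for the
elements of `H` divides the measure at most by `C ^ |H|`. -/
theorem measure_bowen_union_le [DecidableEq S] (G H : Finset S) {U V : Set K} (E : Finset K)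
    (hE : ∀ y : K, ∃ x ∈ E, x⁻¹ * y ∈ U) (hUV : ∀ x ∈ U, ∀ y ∈ U, x⁻¹ * y ∈ V) :
    μ.real (bowen G U) ≤ (E.card : ℝ) ^ H.card * μ.real (bowen (G ∪ H) V) := by
  classical
  let A : (H → E) → Set K := fun j => {x | x ∈ bowen G U ∧ ∀ s : H, ((j s : K))⁻¹ * ((s : S) • x) ∈ U}
  have h1 : bowen G U ⊆ ⋃ j ∈ (Finset.univ : Finset (H → E)), A j := by
    intro x hx
    choose c hc hcx using fun s : S => hE (s • x)
    exact mem_iUnion₂.2 ⟨fun s => ⟨c s, hc s⟩, Finset.mem_univ _, hx, fun s => hcx s⟩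
  have h2 : ∀ j, μ (A j) ≤ μ (bowen (G ∪ H) V) := by
    intro j
    apply measure_le_of_diff μ (G ∪ H)
    intro x hx y hy s hs
    rw [smul_mul', smul_inv']
    rcases Finset.mem_union.1 hs with hs | hs
    · exact hUV _ (hx.1 s hs) _ (hy.1 s hs)
    · have h3 := hUV _ (hx.2 ⟨s, hs⟩) _ (hy.2 ⟨s, hs⟩)
      rwa [mul_inv, inv_inv, mul_mul_mul_comm, mul_inv_cancel, one_mul] at h3
  have h3 : μ (bowen G U) ≤ ((E.card ^ H.card : ℕ) : ENNReal) * μ (bowen (G ∪ H) V) := by
    calc μ (bowen G U) ≤ μ (⋃ j ∈ (Finset.univ : Finset (H → E)), A j) := measure_mono h1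
      _ ≤ ∑ j : (H → E), μ (A j) := measure_biUnion_finset_le _ _
      _ ≤ ∑ _j : (H → E), μ (bowen (G ∪ H) V) := Finset.sum_le_sum fun j _ => h2 j
      _ = ((E.card ^ H.card : ℕ) : ENNReal) * μ (bowen (G ∪ H) V) := by
        rw [Finset.sum_const, nsmul_eq_mul, Finset.card_univ, Fintype.card_fun,
          Fintype.card_coe, Fintype.card_coe]
  have h4 := ENNReal.toReal_mono
    (ENNReal.mul_ne_top (ENNReal.natCast_ne_top _) (measure_ne_top μ _)) h3
  rw [ENNReal.toReal_mul, ENNReal.toReal_natCast] at h4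
  simpa [Measure.real] using h4

end Pool.Agent.V7H48.BT
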