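import Mathlib
import Pool.Agent.V7H48.BT.Bowen
import Pool.Agent.H481R3.CGB

/-! Characters of a compact abelian group: orthogonality, Bessel's inequality, density. -/

set_option autoImplicit false
set_option linter.unusedSectionVars false

open Set Filter Topology MeasureTheory
open scoped Pointwise ComplexConjugate InnerProductSpace

universe u v w

namespace Pool.Agent.V7H48.BT

variable {K : Type v} [CommGroup K] [TopologicalSpace K]

/-- a character as a continuous complex function -/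
noncomputable def chr (χ : K →ₜ* Circle) : C(K, ℂ) :=
  ⟨fun x => (χ x : ℂ), continuous_subtype_val.comp χ.continuous_toFun⟩

@[simp] theorem chr_apply (χ : K →ₜ* Circle) (x : K) : chr χ x = (χ x : ℂ) := rfl

theorem chr_mul (χ ψ : K →ₜ* Circle) : chr (χ * ψ) = chr χ * chr ψ := by
  ext x
  simp

theorem chr_one : chr (1 : K →ₜ* Circle) = 1 := by
  ext x
  simp

theorem conj_chr (χ : K →ₜ* Circle) (x : K) : conj (chr χ x) = chr χ⁻¹ x :=
  (Circle.coe_inv_eq_conj (χ x)).symm

theorem norm_chr (χ : K →ₜ* Circle) (x : K) : ‖chr χ x‖ = 1 := Circle.norm_coe (χ x)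

theorem chr_at_one (χ : K →ₜ* Circle) : chr χ 1 = 1 := by
  simp [chr_apply]

variable [IsTopologicalGroup K] [CompactSpace K] [MeasurableSpace K] [BorelSpace K]
  (μ : Measure K) [μ.IsMulLeftInvariant] [IsProbabilityMeasure μ]

theorem integrable_cont (f : C(K, ℂ)) : Integrable (fun x => f x) μ :=
  f.continuous.integrable_of_hasCompactSupport (HasCompactSupport.of_compactSpace _)

theorem integral_chr_eq_zero {χ : K →ₜ* Circle} (hχ : χ ≠ 1) : ∫ x, chr χ x ∂μ = 0 := by
  obtain ⟨y, hy⟩ : ∃ y, χ y ≠ 1 := by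
    by_contra hcon
    push Not at hcon
    apply hχ
    ext y
    rw [hcon y]
    rfl
  have h1 : ∫ x, chr χ (y * x) ∂μ = ∫ x, chr χ x ∂μ := integral_mul_left_eq_self (chr χ) y
  have h2 : ∀ x, chr χ (y * x) = (χ y : ℂ) * chr χ x := by
    intro x
    simp [chr_apply, map_mul]
  simp_rw [h2] at h1
  rw [integral_const_mul] at h1
  have h3 : ((χ y : ℂ) - 1) * ∫ x, chr χ x ∂μ = 0 := by
    rw [sub_mul, h1, one_mul, sub_self]
  rcases mul_eq_zero.1 h3 with h | h
  · exfalso
    apply hy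
    have : (χ y : ℂ) = 1 := by linear_combination h
    exact Circle.ext this
  · exact h

theorem integral_chr_one : ∫ x, chr (1 : K →ₜ* Circle) x ∂μ = 1 := by
  simp

/-- the integral of a character is `0` or `1` -/
theorem integral_chr (χ : K →ₜ* Circle) : ∫ x, chr χ x ∂μ = 0 ∨ ∫ x, chr χ x ∂μ = 1 := by
  by_cases h : χ = 1
  · right
    rw [h]
    exact integral_chr_one μ
  · left
    exact integral_chr_eq_zero μ h

theorem orthonormal_chr :
    Orthonormal ℂ (fun χ : K →ₜ* Circle => (ContinuousMap.toLp 2 μ ℂ (chr χ) : Lp ℂ 2 μ)) := by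
  classical
  rw [orthonormal_iff_ite]
  intro χ ψ
  rw [ContinuousMap.inner_toLp]
  have h : ∀ x, chr ψ x * conj (chr χ x) = chr (ψ * χ⁻¹) x := by
    intro x
    rw [conj_chr, chr_mul]
    rfl
  simp_rw [h]
  split_ifs with hx
  · rw [hx, mul_inv_cancel]
    exact integral_chr_one μ
  · apply integral_chr_eq_zero
    intro h
    exact hx (mul_inv_eq_one.1 h).symm

/-- Bessel's inequality -/
theorem bessel (f : C(K, ℂ)) (T : Finset (K →ₜ* Circle)) :
    ∑ χ ∈ T, ‖∫ x, f x * conj (chr χ x) ∂μ‖ ^ 2 ≤ ∫ x, ‖f x‖ ^ 2 ∂μ := by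
  have h1 := (orthonormal_chr μ).sum_inner_products_le
    (x := (ContinuousMap.toLp 2 μ ℂ f : Lp ℂ 2 μ)) (s := T)
  simp_rw [ContinuousMap.inner_toLp] at h1
  have h2 : ‖(ContinuousMap.toLp 2 μ ℂ f : Lp ℂ 2 μ)‖ ^ 2 = ∫ x, ‖f x‖ ^ 2 ∂μ := by
    rw [← @inner_self_eq_norm_sq ℂ, ContinuousMap.inner_toLp]
    have h3 : ∀ x, f x * conj (f x) = ((‖f x‖ ^ 2 : ℝ) : ℂ) := by
      intro x
      rw [Complex.mul_conj, Complex.normSq_eq_norm_sq]
    simp_rw [h3]
    rw [integral_complex_ofReal]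
    exact Complex.ofReal_re _
  rw [h2] at h1
  exact h1

end Pool.Agent.V7H48.BT
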