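import Mathlib
import Pool.Agent.V7H48.BT.Fourier

/-! The closed semiring generated by the characters and the Poisson kernel. -/

set_option autoImplicit false
set_option linter.unusedSectionVars false

open Set Filter Topology MeasureTheory
open scoped Pointwise ComplexConjugate

universe u v w

namespace Pool.Agent.V7H48.BT

variable {S : Type u} {K : Type v} [CommGroup K] [TopologicalSpace K]

/-- nonnegative multiples of characters -/
noncomputable def monM (K : Type v) [CommGroup K] [TopologicalSpace K] :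
    Submonoid C(K, ℂ) where
  carrier := {g | ∃ (c : ℝ) (χ : K →ₜ* Circle), 0 ≤ c ∧ g = (c : ℂ) • chr χ}
  one_mem' := ⟨1, 1, zero_le_one, by rw [chr_one]; simp⟩
  mul_mem' := by
    rintro _ _ ⟨c, χ, hc, rfl⟩ ⟨d, ψ, hd, rfl⟩
    refine ⟨c * d, χ * ψ, mul_nonneg hc hd, ?_⟩
    rw [chr_mul, smul_mul_smul_comm]
    norm_cast

theorem mem_monM (c : ℝ) (hc : 0 ≤ c) (χ : K →ₜ* Circle) : (c : ℂ) • chr χ ∈ monM K :=
  ⟨c, χ, hc, rfl⟩

variable [CompactSpace K]

/-- the closed semiring generated by nonnegative multiples of characters -/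
noncomputable def PP (K : Type v) [CommGroup K] [TopologicalSpace K] [CompactSpace K] :
    Subsemiring C(K, ℂ) :=
  (monM K).subsemiringClosure.topologicalClosure

theorem smul_chr_mem (c : ℝ) (hc : 0 ≤ c) (χ : K →ₜ* Circle) : (c : ℂ) • chr χ ∈ PP K := by
  apply Subsemiring.le_topologicalClosure
  rw [Submonoid.subsemiringClosure_mem]
  exact AddSubmonoid.subset_closure (mem_monM c hc χ)

theorem chr_mem (χ : K →ₜ* Circle) : chr χ ∈ PP K := by
  have := smul_chr_mem 1 zero_le_one χ
  simpa using this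

theorem const_mem (c : ℝ) (hc : 0 ≤ c) : (c : ℂ) • (1 : C(K, ℂ)) ∈ PP K := by
  have := smul_chr_mem c hc (1 : K →ₜ* Circle)
  rwa [chr_one] at this

theorem smul_mem_PP (c : ℝ) (hc : 0 ≤ c) {g : C(K, ℂ)} (hg : g ∈ PP K) : (c : ℂ) • g ∈ PP K := by
  have h := mul_mem (const_mem c hc) hg
  rwa [smul_mul_assoc, one_mul] at h

/-- the geometric series -/
theorem geom_mem {c : ℝ} (hc : 0 ≤ c) (hc1 : c < 1) (χ : K →ₜ* Circle) :
    ∃ g ∈ PP K, ∀ x, g x = (1 - c * (χ x : ℂ))⁻¹ := by
  set t : C(K, ℂ) := (c : ℂ) • chr χ with ht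
  have htn : ‖t‖ < 1 := by
    rw [ContinuousMap.norm_lt_iff _ zero_lt_one]
    intro x
    rw [ht, ContinuousMap.smul_apply, norm_smul, norm_chr, mul_one]
    simpa [abs_of_nonneg hc] using hc1
  refine ⟨∑' n : ℕ, t ^ n, ?_, ?_⟩
  · have hs := (summable_geometric_of_norm_lt_one htn).hasSum
    have hcl : IsClosed ((PP K : Subsemiring C(K, ℂ)) : Set C(K, ℂ)) :=
      Subsemiring.isClosed_topologicalClosure _
    refine hcl.mem_of_tendsto hs (Filter.Eventually.of_forall fun s => ?_)
    exact sum_mem fun n _ => pow_mem (smul_chr_mem c hc χ) n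
  · intro x
    have h := congrArg (fun f : C(K, ℂ) => f x) (mul_neg_geom_series t htn)
    simp only [ContinuousMap.mul_apply, ContinuousMap.sub_apply, ContinuousMap.one_apply] at h
    have h2 : t x = c * (χ x : ℂ) := by
      rw [ht, ContinuousMap.smul_apply, chr_apply, smul_eq_mul]
    rw [h2] at h
    exact eq_inv_of_mul_eq_one_right h

section integral

variable [IsTopologicalGroup K] [MeasurableSpace K] [BorelSpace K]
  (μ : Measure K) [μ.IsMulLeftInvariant] [IsProbabilityMeasure μ]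

/-- the integral of a member of the semiring is nonnegative -/
theorem integral_mem {g : C(K, ℂ)} (hg : g ∈ PP K) :
    0 ≤ (∫ x, g x ∂μ).re ∧ (∫ x, g x ∂μ).im = 0 := by
  have hcont : Continuous (fun f : C(K, ℂ) => ∫ x, f x ∂μ) := by
    have h : Continuous (ContinuousMap.toLp 1 μ ℂ : C(K, ℂ) → Lp ℂ 1 μ) :=
      (ContinuousMap.toLp 1 μ ℂ : C(K, ℂ) →L[ℂ] Lp ℂ 1 μ).continuous
    have h2 : (fun f : C(K, ℂ) => ∫ x, f x ∂μ) =
        (fun g : Lp ℂ 1 μ => ∫ x, g x ∂μ) ∘ (ContinuousMap.toLp 1 μ ℂ) := by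
      funext f
      apply integral_congr_ae
      exact (ContinuousMap.coeFn_toLp (p := 1) (𝕜 := ℂ) μ f).symm
    rw [h2]
    exact continuous_integral.comp h
  have hcl : IsClosed {g : C(K, ℂ) | 0 ≤ (∫ x, g x ∂μ).re ∧ (∫ x, g x ∂μ).im = 0} :=
    (isClosed_le continuous_const (Complex.continuous_re.comp hcont)).inter
      (isClosed_eq (Complex.continuous_im.comp hcont) continuous_const)
  have hsub : ((monM K).subsemiringClosure : Set C(K, ℂ)) ⊆
      {g : C(K, ℂ) | 0 ≤ (∫ x, g x ∂μ).re ∧ (∫ x, g x ∂μ).im = 0} := by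
    intro g hg
    rw [Submonoid.subsemiringClosure_coe] at hg
    refine AddSubmonoid.closure_induction (motive := fun g _ =>
      0 ≤ (∫ x, g x ∂μ).re ∧ (∫ x, g x ∂μ).im = 0) ?_ ?_ ?_ hg
    · rintro _ ⟨c, χ, hc, rfl⟩
      have h1 : ∫ x, ((c : ℂ) • chr χ) x ∂μ = c * ∫ x, chr χ x ∂μ := by
        rw [← integral_const_mul]
        rfl
      rw [h1]
      rcases integral_chr μ χ with h | h
      · rw [h]
        simp
      · rw [h]
        simp [hc]
    · simp
    · rintro g h - - ⟨hg1, hg2⟩ ⟨hh1, hh2⟩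
      have h1 : ∫ x, (g + h) x ∂μ = ∫ x, g x ∂μ + ∫ x, h x ∂μ :=
        integral_add (integrable_cont μ g) (integrable_cont μ h)
      rw [h1, Complex.add_re, Complex.add_im]
      exact ⟨add_nonneg hg1 hh1, by rw [hg2, hh2, add_zero]⟩
  exact closure_minimal hsub hcl hg

end integral

section action

variable [Monoid S] [MulDistribMulAction S K] [ContinuousConstSMul S K]

/-- composition with `γ(s)` -/
noncomputable def pull (s : S) : C(K, ℂ) →ₐ[ℂ] C(K, ℂ) :=
  ContinuousMap.compRightAlgHom ℂ ℂ ⟨fun x => s • x, continuous_const_smul s⟩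

omit [CompactSpace K] in
@[simp] theorem pull_apply (s : S) (g : C(K, ℂ)) (x : K) : pull s g x = g (s • x) := rfl

omit [CompactSpace K] in
theorem pull_chr (s : S) (χ : K →ₜ* Circle) : pull s (chr χ) = chr (dualAct s χ) := rfl

theorem pull_mem (s : S) {g : C(K, ℂ)} (hg : g ∈ PP K) : pull s g ∈ PP K := by
  have hcont : Continuous (pull s : C(K, ℂ) → C(K, ℂ)) :=
    ContinuousMap.compRightAlgHom_continuous ℂ ℂ _
  refine map_mem_closure (s := ((monM K).subsemiringClosure : Set C(K, ℂ)))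
    (t := ((monM K).subsemiringClosure : Set C(K, ℂ))) hcont hg ?_
  intro g hg
  rw [Submonoid.subsemiringClosure_coe] at hg ⊢
  refine AddSubmonoid.closure_induction (motive := fun g _ =>
    pull s g ∈ (AddSubmonoid.closure (monM K : Set C(K, ℂ)) : Set C(K, ℂ))) ?_ ?_ ?_ hg
  · rintro _ ⟨c, χ, hc, rfl⟩
    rw [map_smul, pull_chr]
    exact AddSubmonoid.subset_closure (mem_monM c hc _)
  · rw [map_zero]
    exact zero_mem _
  · intro g h _ _ hg hh
    rw [map_add]
    exact add_mem hg hh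

end action

end Pool.Agent.V7H48.BT
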