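import Mathlib
import Pool.Agent.V7H48.BT.Pos

/-! The first inequality: the trajectories are bounded by the covering numbers. -/

set_option autoImplicit false
set_option linter.unusedSectionVars false

open Set Filter Topology MeasureTheory
open scoped Pointwise ComplexConjugate

universe u v w

namespace Pool.Agent.V7H48.BT

section covers

variable {K : Type v} [CommGroup K] [TopologicalSpace K] [CompactSpace K] [IsTopologicalGroup K]

theorem exists_translates {U : Set K} (hU : IsOpen U) (h1 : (1 : K) ∈ U) :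
    ∃ E : Finset K, ∀ y : K, ∃ x ∈ E, x⁻¹ * y ∈ U := by
  obtain ⟨t, ht⟩ := isCompact_univ.elim_finite_subcover (fun x : K => (fun y => x⁻¹ * y) ⁻¹' U)
    (fun x => hU.preimage (continuous_const_mul x⁻¹))
    (fun x _ => mem_iUnion.2 ⟨x, by simpa using h1⟩)
  refine ⟨t, fun y => ?_⟩
  obtain ⟨x, hx, hy⟩ := mem_iUnion₂.1 (ht (mem_univ y))
  exact ⟨x, hx, hy⟩

/-- a neighbourhood `V` of `1` with `V⁻¹ V ⊆ U` -/
theorem exists_open_diff {U : Set K} (hU : IsOpen U) (h1 : (1 : K) ∈ U) :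
    ∃ V : Set K, IsOpen V ∧ (1 : K) ∈ V ∧ ∀ x ∈ V, ∀ y ∈ V, x⁻¹ * y ∈ U := by
  have hc : Continuous (fun p : K × K => p.1⁻¹ * p.2) := by fun_prop
  have hm : (fun p : K × K => p.1⁻¹ * p.2) ⁻¹' U ∈ 𝓝 ((1 : K), (1 : K)) :=
    (hU.preimage hc).mem_nhds (by simpa using h1)
  obtain ⟨V, hV, V', hV', h⟩ := mem_nhds_prod_iff.1 hm
  obtain ⟨W, hWs, hWo, h1W⟩ := mem_nhds_iff.1 (inter_mem hV hV')
  refine ⟨W, hWo, h1W, fun x hx y hy => ?_⟩
  exact h (mk_mem_prod (hWs hx).1 (hWs hy).2)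

theorem exists_cover {U : Set K} (hU : IsOpen U) (h1 : (1 : K) ∈ U) :
    ∃ 𝒰 : Set (Set K), IsFiniteOpenCover 𝒰 ∧ ∀ V ∈ 𝒰, ∀ x ∈ V, ∀ y ∈ V, x⁻¹ * y ∈ U := by
  classical
  obtain ⟨W, hWo, h1W, hW⟩ := exists_open_diff hU h1
  obtain ⟨E, hE⟩ := exists_translates hWo h1W
  refine ⟨(E.image fun x : K => (fun y => x⁻¹ * y) ⁻¹' W : Finset (Set K)), ⟨?_, ?_, ?_⟩, ?_⟩
  · exact Finset.finite_toSet _
  · intro V hV
    rw [Finset.mem_coe, Finset.mem_image] at hV
    obtain ⟨x, -, rfl⟩ := hV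
    exact hWo.preimage (continuous_const_mul x⁻¹)
  · rw [eq_univ_iff_forall]
    intro y
    obtain ⟨x, hx, hy⟩ := hE y
    exact ⟨_, by rw [Finset.mem_coe]; exact Finset.mem_image_of_mem _ hx, hy⟩
  · intro V hV
    rw [Finset.mem_coe, Finset.mem_image] at hV
    obtain ⟨k, -, rfl⟩ := hV
    intro x hx y hy
    have h := hW _ hx _ hy
    have h2 : (k⁻¹ * x)⁻¹ * (k⁻¹ * y) = x⁻¹ * y := by group
    rwa [h2] at h

end covers

section kernel

variable {K : Type v} [CommGroup K] [TopologicalSpace K] [CompactSpace K]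

theorem one_sub_ne {r : ℝ} (hr : 0 ≤ r) (hr1 : r < 1) (z : Circle) : 1 - (r : ℂ) * (z : ℂ) ≠ 0 := by
  intro h
  have h1 : (r : ℂ) * z = 1 := by linear_combination -h
  have h2 : ‖(r : ℂ) * (z : ℂ)‖ = 1 := by rw [h1]; simp
  rw [norm_mul, Circle.norm_coe, mul_one, Complex.norm_real, Real.norm_of_nonneg hr] at h2
  linarith

/-- the Poisson kernel -/
noncomputable def pois (r : ℝ) (z : Circle) : ℝ := (1 - r ^ 2) / Complex.normSq (1 - r * (z : ℂ))

theorem pois_pos {r : ℝ} (hr : 0 ≤ r) (hr1 : r < 1) (z : Circle) : 0 < pois r z := by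
  apply div_pos
  · nlinarith
  · exact Complex.normSq_pos.2 (one_sub_ne hr hr1 z)

theorem pois_le {r : ℝ} (hr : 0 ≤ r) (hr1 : r < 1) (z : Circle) : pois r z ≤ pois r 1 := by
  unfold pois
  have h1 : (1 - r) ^ 2 ≤ Complex.normSq (1 - r * (z : ℂ)) := by
    rw [Complex.normSq_eq_norm_sq]
    apply pow_le_pow_left₀ (by linarith)
    have h2 := norm_sub_norm_le (1 : ℂ) (r * (z : ℂ))
    rw [norm_mul, Circle.norm_coe, mul_one, Complex.norm_real, Real.norm_of_nonneg hr,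
      norm_one] at h2
    exact h2
  have h2 : Complex.normSq (1 - r * ((1 : Circle) : ℂ)) = (1 - r) ^ 2 := by
    rw [Circle.coe_one, mul_one, ← Complex.ofReal_one, ← Complex.ofReal_sub, Complex.normSq_ofReal,
      sq]
  rw [h2]
  apply div_le_div_of_nonneg_left _ _ h1
  · nlinarith
  · have : 0 < 1 - r := by linarith
    positivity

theorem continuous_pois {r : ℝ} (hr : 0 ≤ r) (hr1 : r < 1) (a : K →ₜ* Circle) :
    Continuous fun x => pois r (a x) := by
  unfold pois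
  apply Continuous.div continuous_const
  · apply Complex.continuous_normSq.comp
    exact continuous_const.sub (continuous_const.mul
      (continuous_subtype_val.comp a.continuous_toFun))
  · intro x
    rw [Ne, Complex.normSq_eq_zero]
    exact one_sub_ne hr hr1 _

theorem pois_eq {r : ℝ} (z : Circle) :
    ((pois r z : ℝ) : ℂ) = ((1 - r ^ 2 : ℝ) : ℂ) * ((1 - r * (z : ℂ))⁻¹ *
      (1 - r * ((z⁻¹ : Circle) : ℂ))⁻¹) := by
  unfold pois
  rw [Complex.ofReal_div, ← mul_inv, div_eq_mul_inv]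
  congr 2
  rw [← Complex.mul_conj, Circle.coe_inv_eq_conj]
  simp

theorem exists_pois {r : ℝ} (hr : 0 ≤ r) (hr1 : r < 1) (a : K →ₜ* Circle) :
    ∃ g ∈ PP K, (∀ x, g x = ((pois r (a x) : ℝ) : ℂ)) ∧
      g * chr a⁻¹ - (r : ℂ) • g ∈ PP K := by
  obtain ⟨g₁, hg₁, h₁⟩ := geom_mem hr hr1 a
  obtain ⟨g₂, hg₂, h₂⟩ := geom_mem hr hr1 a⁻¹
  have hr2 : (0 : ℝ) ≤ 1 - r ^ 2 := by nlinarith
  have hval : ∀ x, (((1 - r ^ 2 : ℝ) : ℂ) • (g₁ * g₂)) x = ((pois r (a x) : ℝ) : ℂ) := by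
    intro x
    rw [pois_eq, ContinuousMap.smul_apply, ContinuousMap.mul_apply, h₁, h₂, smul_eq_mul]
    rfl
  refine ⟨((1 - r ^ 2 : ℝ) : ℂ) • (g₁ * g₂), smul_mem_PP _ hr2 (mul_mem hg₁ hg₂), hval, ?_⟩
  have heq : ((1 - r ^ 2 : ℝ) : ℂ) • (g₁ * g₂) * chr a⁻¹ -
      (r : ℂ) • (((1 - r ^ 2 : ℝ) : ℂ) • (g₁ * g₂)) =
      ((1 - r ^ 2 : ℝ) : ℂ) • (chr a⁻¹ * g₂) := by
    ext x
    have hz : chr a⁻¹ x = ((a x : ℂ))⁻¹ := by
      rw [chr_apply]
      exact Circle.coe_inv (a x)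
    have ha : (a x : ℂ) ≠ 0 := Circle.coe_ne_zero _
    have h3 := one_sub_ne hr hr1 (a x)
    have h4 : ((a⁻¹ : K →ₜ* Circle) x) = (a x)⁻¹ := rfl
    simp only [ContinuousMap.sub_apply, ContinuousMap.mul_apply, ContinuousMap.smul_apply,
      smul_eq_mul, hz, h₁, h₂, h4, Circle.coe_inv]
    generalize (1 - (r : ℂ) * ((a x : ℂ))⁻¹)⁻¹ = w
    field_simp
  rw [heq]
  exact smul_mem_PP _ hr2 (mul_mem (chr_mem _) hg₂)

/-- the product of the Poisson kernels -/
theorem exists_kernel {r : ℝ} (hr : 0 ≤ r) (hr1 : r < 1) (X : Finset (K →ₜ* Circle)) :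
    ∃ b ∈ PP K, (∃ β : K → ℝ, Continuous β ∧ (∀ x, b x = ((β x : ℝ) : ℂ)) ∧ (∀ x, 0 < β x) ∧
      (∀ x, β x ≤ β 1)) ∧ ∀ a ∈ X, b * chr a⁻¹ - (r : ℂ) • b ∈ PP K := by
  classical
  choose g hg hval hsub using fun a : K →ₜ* Circle => exists_pois hr hr1 a
  refine ⟨∏ a ∈ X, g a, prod_mem fun a _ => hg a,
    ⟨fun x => ∏ a ∈ X, pois r (a x), ?_, ?_, ?_, ?_⟩, ?_⟩
  · exact continuous_finsetProd _ fun a _ => continuous_pois hr hr1 a
  · intro x
    rw [ContinuousMap.prod_apply, Complex.ofReal_prod]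
    exact Finset.prod_congr rfl fun a _ => hval a x
  · intro x
    exact Finset.prod_pos fun a _ => pois_pos hr hr1 _
  · intro x
    apply Finset.prod_le_prod
    · intro a _
      exact (pois_pos hr hr1 _).le
    · intro a _
      rw [map_one]
      exact pois_le hr hr1 _
  · intro a ha
    rw [← Finset.mul_prod_erase X g ha]
    have heq : g a * (∏ x ∈ X.erase a, g x) * chr a⁻¹ -
        (r : ℂ) • (g a * ∏ x ∈ X.erase a, g x) =
        (g a * chr a⁻¹ - (r : ℂ) • g a) * ∏ x ∈ X.erase a, g x := by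
      rw [sub_mul, smul_mul_assoc]
      ring
    rw [heq]
    exact mul_mem (hsub a) (prod_mem fun a _ => hg a)

end kernel

section action

variable {S : Type u} {K : Type v} [CommGroup K] [TopologicalSpace K] [CompactSpace K]
  [Monoid S] [MulDistribMulAction S K] [ContinuousConstSMul S K]

theorem traj_finite (F : Finset S) (X : Finset (K →ₜ* Circle)) : (trajectory F X).Finite := by
  classical
  have h : trajectory F X ⊆ Set.range
      (fun c : F → X => ∏ s : F, dualAct (s : S) (c s : K →ₜ* Circle)) := by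
    rintro _ ⟨c, hc, rfl⟩
    refine ⟨fun s => ⟨c s, hc s s.2⟩, ?_⟩
    exact Finset.prod_coe_sort F (fun s => dualAct s (c s))
  exact (Set.finite_range _).subset h

theorem prod_sub_mem {r : ℝ} (hr : 0 ≤ r) {X : Finset (K →ₜ* Circle)} {b : C(K, ℂ)}
    (hb : b ∈ PP K) (hbX : ∀ a ∈ X, b * chr a⁻¹ - (r : ℂ) • b ∈ PP K) (F : Finset S)
    (c : S → (K →ₜ* Circle)) (hc : ∀ s ∈ F, c s ∈ X) :
    (∏ s ∈ F, pull s b) * chr (∏ s ∈ F, dualAct s (c s))⁻¹ -
      ((r : ℂ) ^ F.card) • ∏ s ∈ F, pull s b ∈ PP K := by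
  classical
  induction F using Finset.induction_on with
  | empty =>
    simp [chr_one]
  | insert s F hs ih =>
    have ih' := ih fun t ht => hc t (Finset.mem_insert_of_mem ht)
    rw [Finset.prod_insert hs, Finset.prod_insert hs, Finset.card_insert_of_notMem hs, mul_inv,
      chr_mul]
    set f := ∏ t ∈ F, pull t b with hf
    set χ := (∏ t ∈ F, dualAct t (c t))⁻¹ with hχ
    have hfm : f ∈ PP K := prod_mem fun t _ => pull_mem t hb
    have h1 : pull s b * chr (dualAct s (c s))⁻¹ - (r : ℂ) • pull s b ∈ PP K := by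
      have h2 := pull_mem s (hbX (c s) (hc s (Finset.mem_insert_self s F)))
      rw [map_sub, map_mul, map_smul, pull_chr] at h2
      exact h2
    have h3 : pull s b * f * (chr (dualAct s (c s))⁻¹ * chr χ) -
        ((r : ℂ) ^ (F.card + 1)) • (pull s b * f) =
        (pull s b * chr (dualAct s (c s))⁻¹ - (r : ℂ) • pull s b) * (f * chr χ) +
        ((r : ℂ) • pull s b) * (f * chr χ - ((r : ℂ) ^ F.card) • f) := by
      ext x
      simp only [ContinuousMap.sub_apply, ContinuousMap.mul_apply, ContinuousMap.smul_apply,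
        ContinuousMap.add_apply, smul_eq_mul]
      ring
    rw [h3]
    exact add_mem (mul_mem h1 (mul_mem hfm (chr_mem _)))
      (mul_mem (smul_mem_PP r hr (pull_mem s hb)) ih')

end action

end Pool.Agent.V7H48.BT
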