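import Mathlib
import Pool.Agent.V7H48.BT.IneqA

/-! The first inequality, conclusion. -/

set_option autoImplicit false
set_option linter.unusedSectionVars false

open Set Filter Topology MeasureTheory
open scoped Pointwise ComplexConjugate

universe u v w

namespace Pool.Agent.V7H48.BT

variable {S : Type u} {K : Type v} [CommGroup K] [TopologicalSpace K] [CompactSpace K]
  [IsTopologicalGroup K] [Monoid S] [MulDistribMulAction S K] [ContinuousConstSMul S K]
  [MeasurableSpace K] [BorelSpace K]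
  (μ : Measure K) [μ.IsMulLeftInvariant] [IsProbabilityMeasure μ] [μ.IsOpenPosMeasure]

theorem integrable_real {f : K → ℝ} (hf : Continuous f) : Integrable f μ :=
  hf.integrable_of_hasCompactSupport (HasCompactSupport.of_compactSpace _)

include μ in
/-- `|T_F(X)| r^(3|F|) ≤ N(𝒰_F)` -/
theorem ineqA_aux {r : ℝ} (hr0 : 0 < r) (hr1 : r < 1) (X : Finset (K →ₜ* Circle)) :
    ∃ 𝒰 : Set (Set K), IsFiniteOpenCover 𝒰 ∧ ∀ F : Finset S,
      ((trajectory F X).ncard : ℝ) * (r ^ 3) ^ F.card ≤ coverNum (joinCover F 𝒰) := by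
  classical
  obtain ⟨b, hb, ⟨β, hβc, hβb, hβ0, hβ1⟩, hbX⟩ := exists_kernel hr0.le hr1 X
  set M := β 1 with hM
  have hM0 : 0 < M := hβ0 1
  -- the neighbourhood
  obtain ⟨U, hUo, h1U, hU⟩ : ∃ U : Set K, IsOpen U ∧ (1 : K) ∈ U ∧ ∀ x ∈ U, r * M ≤ β x := by
    refine ⟨{x | r * M < β x}, isOpen_lt continuous_const hβc, ?_, fun x hx => le_of_lt hx⟩
    change r * M < M
    nlinarith
  obtain ⟨𝒰, h𝒰, hdiff⟩ := exists_cover hUo h1U
  refine ⟨𝒰, h𝒰, fun F => ?_⟩
  have hN := one_le_coverNum_mul μ F h𝒰 hdiff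
  set N : ℝ := (coverNum (joinCover F 𝒰) : ℝ) with hNdef
  set B := bowen F U with hB
  have hBo : IsOpen B := isOpen_bowen F hUo
  have hBpos : 0 < μ.real B :=
    ENNReal.toReal_pos (hBo.measure_pos μ ⟨1, one_mem_bowen F h1U⟩).ne' (measure_ne_top μ _)
  set n := F.card with hn
  set T := (traj_finite F X).toFinset with hT
  have hTcard : ((trajectory F X).ncard : ℝ) = (T.card : ℝ) := by
    rw [Set.ncard_eq_toFinset_card _ (traj_finite F X)]
  rw [hTcard]
  -- the product
  set f : C(K, ℂ) := ∏ s ∈ F, pull s b with hf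
  set φ : K → ℝ := fun x => ∏ s ∈ F, β (s • x) with hφ
  have hfφ : ∀ x, f x = ((φ x : ℝ) : ℂ) := by
    intro x
    rw [hf, ContinuousMap.prod_apply, hφ, Complex.ofReal_prod]
    exact Finset.prod_congr rfl fun s _ => by rw [pull_apply, hβb]
  have hφc : Continuous φ := continuous_finsetProd _ fun s _ =>
    hβc.comp (continuous_const_smul s)
  have hφ0 : ∀ x, 0 < φ x := fun x => Finset.prod_pos fun s _ => hβ0 _
  have hφM : ∀ x, φ x ≤ M ^ n := by
    intro x
    rw [hn, ← Finset.prod_const]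
    exact Finset.prod_le_prod (fun s _ => (hβ0 _).le) fun s _ => hβ1 _
  set I := ∫ x, φ x ∂μ with hI
  have hφi : Integrable φ μ := integrable_real μ hφc
  have hI1 : (r * M) ^ n * μ.real B ≤ I := by
    have h1 : ∫ x, B.indicator (fun _ => (r * M) ^ n) x ∂μ ≤ I := by
      apply integral_mono _ hφi
      · intro x
        by_cases hx : x ∈ B
        · simp only [Set.indicator_of_mem hx]
          rw [hn, ← Finset.prod_const]
          exact Finset.prod_le_prod (fun s _ => by positivity) fun s hs => hU _ (hx s hs)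
        · simp only [Set.indicator_of_notMem hx]
          exact (hφ0 x).le
      · exact (integrable_const _).indicator hBo.measurableSet
    rw [integral_indicator_const _ hBo.measurableSet, smul_eq_mul, mul_comm] at h1
    exact h1
  have hIpos : 0 < I := lt_of_lt_of_le (by positivity) hI1
  -- each coefficient is large
  have hcoef : ∀ χ ∈ T, r ^ n * I ≤ ‖∫ x, f x * conj (chr χ x) ∂μ‖ := by
    intro χ hχ
    rw [hT, Set.Finite.mem_toFinset] at hχ
    obtain ⟨c, hc, rfl⟩ := hχ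
    have h1 := integral_mem μ (prod_sub_mem hr0.le hb hbX F c hc)
    set χ := ∏ s ∈ F, dualAct s (c s) with hχd
    have h2 : ∫ x, (f * chr χ⁻¹ - ((r : ℂ) ^ n) • f) x ∂μ =
        ∫ x, f x * conj (chr χ x) ∂μ - ((r ^ n * I : ℝ) : ℂ) := by
      have h3 : ∀ x, (f * chr χ⁻¹ - ((r : ℂ) ^ n) • f) x =
          (f * chr χ⁻¹) x - (r : ℂ) ^ n * f x := fun x => rfl
      simp_rw [h3]
      rw [integral_sub (integrable_cont μ _) ((integrable_cont μ f).const_mul _),
        integral_const_mul]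
      congr 1
      · apply integral_congr_ae
        filter_upwards with x
        rw [conj_chr]
        rfl
      · simp_rw [hfφ]
        rw [integral_complex_ofReal]
        push_cast
        rfl
    rw [h2, Complex.sub_re, Complex.ofReal_re] at h1
    exact (by linarith [h1.1] : r ^ n * I ≤ (∫ x, f x * conj (chr χ x) ∂μ).re).trans
      (Complex.re_le_norm _)
  -- Bessel
  have hbes := bessel μ f T
  have h5 : (T.card : ℝ) * (r ^ n * I) ^ 2 ≤ M ^ n * I := by
    calc (T.card : ℝ) * (r ^ n * I) ^ 2 = ∑ _χ ∈ T, (r ^ n * I) ^ 2 := by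
          rw [Finset.sum_const, nsmul_eq_mul]
      _ ≤ ∑ χ ∈ T, ‖∫ x, f x * conj (chr χ x) ∂μ‖ ^ 2 := by
          apply Finset.sum_le_sum
          intro χ hχ
          exact pow_le_pow_left₀ (by positivity) (hcoef χ hχ) 2
      _ ≤ ∫ x, ‖f x‖ ^ 2 ∂μ := hbes
      _ ≤ ∫ x, M ^ n * φ x ∂μ := by
          apply integral_mono
          · exact integrable_real μ (f.continuous.norm.pow 2)
          · exact hφi.const_mul _
          · intro x
            simp only
            rw [hfφ, Complex.norm_real, Real.norm_of_nonneg (hφ0 x).le, sq]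
            exact mul_le_mul_of_nonneg_right (hφM x) (hφ0 x).le
      _ = M ^ n * I := integral_const_mul _ _
  have h6 : (T.card : ℝ) * (r ^ n) ^ 2 * I ≤ M ^ n := by
    have h7 : (T.card : ℝ) * (r ^ n) ^ 2 * I * I ≤ M ^ n * I := by
      calc (T.card : ℝ) * (r ^ n) ^ 2 * I * I = (T.card : ℝ) * (r ^ n * I) ^ 2 := by ring
        _ ≤ _ := h5
    exact le_of_mul_le_mul_right h7 hIpos
  have h8 : (T.card : ℝ) * (r ^ 3) ^ n * μ.real B ≤ 1 := by
    have h9 : M ^ n * ((T.card : ℝ) * (r ^ 3) ^ n * μ.real B) ≤ M ^ n * 1 := by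
      calc M ^ n * ((T.card : ℝ) * (r ^ 3) ^ n * μ.real B)
          = (T.card : ℝ) * (r ^ n) ^ 2 * ((r * M) ^ n * μ.real B) := by
            rw [← pow_mul, ← pow_mul, mul_pow, mul_comm 3 n, pow_mul, pow_mul]
            ring
        _ ≤ (T.card : ℝ) * (r ^ n) ^ 2 * I := by
            apply mul_le_mul_of_nonneg_left hI1
            positivity
        _ ≤ M ^ n * 1 := by rw [mul_one]; exact h6
    exact le_of_mul_le_mul_left h9 (by positivity)
  have h10 : (T.card : ℝ) * (r ^ 3) ^ n * μ.real B ≤ N * μ.real B := h8.trans hN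
  exact le_of_mul_le_mul_right h10 hBpos

include μ in
/-- `|T_F(X)| q^|F| ≤ N(𝒰_F)` -/
theorem ineqA {q : ℝ} (hq0 : 0 < q) (hq1 : q < 1) (X : Finset (K →ₜ* Circle)) :
    ∃ 𝒰 : Set (Set K), IsFiniteOpenCover 𝒰 ∧ ∀ F : Finset S,
      ((trajectory F X).ncard : ℝ) * q ^ F.card ≤ coverNum (joinCover F 𝒰) := by
  obtain ⟨𝒰, h1, h2⟩ := ineqA_aux (S := S) μ (r := 1 - (1 - q) / 3) (by linarith) (by linarith) X
  refine ⟨𝒰, h1, fun F => le_trans ?_ (h2 F)⟩
  apply mul_le_mul_of_nonneg_left _ (Nat.cast_nonneg _)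
  apply pow_le_pow_left₀ hq0.le
  nlinarith [sq_nonneg (1 - q), mul_pos hq0 (sub_pos.2 hq1), mul_nonneg (sq_nonneg (1 - q)) (by linarith : (0:ℝ) ≤ 8 + q)]

end Pool.Agent.V7H48.BT
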