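import Mathlib
import Pool.Agent.V7H48.BT.IneqA

/-! The second inequality: the covering numbers are bounded by the trajectories. -/

set_option autoImplicit false
set_option linter.unusedSectionVars false
set_option linter.overlappingInstances false

open Set Filter Topology MeasureTheory
open scoped Pointwise ComplexConjugate

universe u v w

namespace Pool.Agent.V7H48.BT

section lebesgue

variable {K : Type v} [CommGroup K] [TopologicalSpace K] [CompactSpace K] [IsTopologicalGroup K]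

/-- a Lebesgue neighbourhood of an open cover -/
theorem exists_lebesgue {𝒰 : Set (Set K)} (h𝒰 : IsFiniteOpenCover 𝒰) :
    ∃ W : Set K, IsOpen W ∧ (1 : K) ∈ W ∧ ∀ x : K, ∃ U ∈ 𝒰, ∀ w ∈ W, x * w ∈ U := by
  classical
  have h1 : ∀ x : K, ∃ U ∈ 𝒰, ∃ W : Set K, IsOpen W ∧ (1 : K) ∈ W ∧
      ∀ v ∈ W, ∀ w ∈ W, x * v * w ∈ U := by
    intro x
    have : x ∈ ⋃₀ 𝒰 := by rw [h𝒰.cover]; trivial
    obtain ⟨U, hU, hxU⟩ := this
    refine ⟨U, hU, ?_⟩
    have hc : Continuous (fun p : K × K => x * p.1 * p.2) := by fun_prop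
    have hm : (fun p : K × K => x * p.1 * p.2) ⁻¹' U ∈ 𝓝 ((1 : K), (1 : K)) :=
      ((h𝒰.isOpen U hU).preimage hc).mem_nhds (by simpa using hxU)
    obtain ⟨V, hV, V', hV', h⟩ := mem_nhds_prod_iff.1 hm
    obtain ⟨W, hWs, hWo, h1W⟩ := mem_nhds_iff.1 (inter_mem hV hV')
    exact ⟨W, hWo, h1W, fun v hv w hw => h (mk_mem_prod (hWs hv).1 (hWs hw).2)⟩
  choose U hU W hWo h1W hW using h1
  obtain ⟨t, ht⟩ := isCompact_univ.elim_finite_subcover
    (fun x : K => (fun y => x⁻¹ * y) ⁻¹' (W x))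
    (fun x => (hWo x).preimage (continuous_const_mul x⁻¹))
    (fun x _ => mem_iUnion.2 ⟨x, by simpa using h1W x⟩)
  refine ⟨⋂ x ∈ t, W x, isOpen_biInter_finset fun x _ => hWo x,
    mem_iInter₂.2 fun x _ => h1W x, fun y => ?_⟩
  obtain ⟨x, hx, hy⟩ := mem_iUnion₂.1 (ht (mem_univ y))
  refine ⟨U x, hU x, fun w hw => ?_⟩
  have h2 := hW x _ hy w (mem_iInter₂.1 hw x hx)
  have h3 : x * (x⁻¹ * y) * w = y * w := by group
  rwa [h3] at h2

end lebesgue

section dense

variable {K : Type v} [CommGroup K] [TopologicalSpace K]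

/-- the star subalgebra generated by the characters -/
noncomputable def chrAlg (K : Type v) [CommGroup K] [TopologicalSpace K] :
    StarSubalgebra ℂ C(K, ℂ) where
  toSubalgebra := Algebra.adjoin ℂ (range (chr (K := K)))
  star_mem' := by
    change Algebra.adjoin ℂ (range (chr (K := K))) ≤
      star (Algebra.adjoin ℂ (range (chr (K := K))))
    refine Algebra.adjoin_le ?_
    rintro - ⟨χ, rfl⟩
    refine Algebra.subset_adjoin ⟨χ⁻¹, ?_⟩
    ext x
    exact (conj_chr χ x).symm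

theorem chrAlg_coe : Subalgebra.toSubmodule (chrAlg K).toSubalgebra =
    Submodule.span ℂ (range (chr (K := K))) := by
  apply Algebra.adjoin_eq_span_of_subset
  refine Subset.trans ?_ Submodule.subset_span
  intro x hx
  refine Submonoid.closure_induction (fun _ => id) ⟨1, chr_one⟩ ?_ hx
  rintro - - - - ⟨χ, rfl⟩ ⟨ψ, rfl⟩
  exact ⟨χ * ψ, chr_mul χ ψ⟩

variable [CompactSpace K] [IsTopologicalGroup K] [T2Space K] [MeasurableSpace K] [BorelSpace K]
  (μ : Measure K) [μ.IsHaarMeasure] [IsProbabilityMeasure μ] [μ.Regular]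

include μ in
theorem chr_dense (f : C(K, ℂ)) {δ : ℝ} (hδ : 0 < δ) :
    ∃ q ∈ Submodule.span ℂ (range (chr (K := K))), ‖f - q‖ < δ := by
  have hsep : (chrAlg K).SeparatesPoints := by
    intro x y hxy
    obtain ⟨χ, hχc, hχ⟩ := Pool.Agent.H481R3.CG.exists_char μ x y hxy
    refine ⟨_, ⟨chr ⟨χ, hχc⟩, Algebra.subset_adjoin ⟨_, rfl⟩, rfl⟩, ?_⟩
    intro h
    exact hχ (Circle.ext h)
  have htop := ContinuousMap.starSubalgebra_topologicalClosure_eq_top_of_separatesPoints
    (chrAlg K) hsep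
  have hf : f ∈ (chrAlg K).topologicalClosure := by rw [htop]; trivial
  have hf2 : f ∈ closure ((chrAlg K : StarSubalgebra ℂ C(K, ℂ)) : Set C(K, ℂ)) := hf
  obtain ⟨q, hq, hd⟩ := Metric.mem_closure_iff.1 hf2 δ hδ
  refine ⟨q, ?_, by rwa [dist_eq_norm] at hd⟩
  rw [← chrAlg_coe]
  exact hq

include μ in
/-- trigonometric polynomials concentrated near `1` -/
theorem exists_poly {U : Set K} (hU : IsOpen U) (h1 : (1 : K) ∈ U) {η : ℝ} (hη : 0 < η)
    (hη1 : η < 1) :
    ∃ X : Finset (K →ₜ* Circle), X.Nonempty ∧ ∃ p ∈ Submodule.span ℂ (chr '' (X : Set (K →ₜ* Circle))),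
      p 1 = 1 ∧ (∀ x, ‖p x‖ ≤ 1 + η) ∧ ∀ x, x ∉ U → ‖p x‖ ≤ η := by
  classical
  obtain ⟨h, h0, h1', h01⟩ := exists_continuous_zero_one_of_isClosed (X := K) (s := Uᶜ) (t := {1})
    hU.isClosed_compl isClosed_singleton (by simpa using h1)
  let hC : C(K, ℂ) := ⟨fun z => ((h z : ℝ) : ℂ), Complex.continuous_ofReal.comp h.continuous⟩
  obtain ⟨q, hq, hqd⟩ := chr_dense μ hC (δ := η / 3) (by positivity)
  have hqx : ∀ x, ‖hC x - q x‖ ≤ η / 3 := by
    intro x
    have h2 := ContinuousMap.norm_coe_le_norm (hC - q) x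
    rw [ContinuousMap.sub_apply] at h2
    linarith
  have hC1 : hC 1 = 1 := by
    have h2 : h 1 = 1 := h1' rfl
    change ((h 1 : ℝ) : ℂ) = 1
    rw [h2]
    simp
  have hC0 : ∀ x, x ∉ U → hC x = 0 := by
    intro x hx
    have h2 : h x = 0 := h0 hx
    change ((h x : ℝ) : ℂ) = 0
    rw [h2]
    simp
  have hCn : ∀ x, ‖hC x‖ ≤ 1 := by
    intro x
    change ‖((h x : ℝ) : ℂ)‖ ≤ 1
    rw [Complex.norm_real, Real.norm_of_nonneg (h01 x).1]
    exact (h01 x).2
  have hq1 : 1 - η / 3 ≤ ‖q 1‖ := by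
    have h2 := hqx 1
    rw [hC1] at h2
    have h3 := norm_sub_norm_le (1 : ℂ) (q 1)
    have h4 := norm_sub_norm_le (1 : ℂ) (1 - q 1)
    rw [sub_sub_cancel, norm_one] at h4
    linarith
  have hq0 : 0 < ‖q 1‖ := by linarith
  have hqne : q 1 ≠ 0 := norm_pos_iff.1 hq0
  -- the finite support
  obtain ⟨Y, hY, hqY⟩ := Submodule.mem_span_finite_of_mem_span hq
  obtain ⟨X, hX⟩ : ∃ X : Finset (K →ₜ* Circle), chr '' (X : Set (K →ₜ* Circle)) = (Y : Set _) := by
    obtain ⟨X, hX1, hX2⟩ := Finset.subset_set_image_iff.1 (by rw [image_univ]; exact hY :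
      (Y : Set C(K, ℂ)) ⊆ chr '' (univ : Set (K →ₜ* Circle)))
    exact ⟨X, by rw [← hX2, Finset.coe_image]⟩
  refine ⟨insert 1 X, Finset.insert_nonempty _ _, (q 1)⁻¹ • q, ?_, ?_, ?_, ?_⟩
  · apply Submodule.smul_mem
    refine Submodule.span_mono ?_ hqY
    rw [← hX]
    exact image_mono (by rw [Finset.coe_insert]; exact subset_insert _ _)
  · rw [ContinuousMap.smul_apply, smul_eq_mul, inv_mul_cancel₀ hqne]
  · intro x
    rw [ContinuousMap.smul_apply, smul_eq_mul, norm_mul, norm_inv, inv_mul_le_iff₀ hq0]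
    have h2 : ‖q x‖ ≤ 1 + η / 3 := by
      have h3 := norm_sub_le (hC x) (hC x - q x)
      rw [sub_sub_cancel] at h3
      linarith [hqx x, hCn x]
    nlinarith
  · intro x hx
    rw [ContinuousMap.smul_apply, smul_eq_mul, norm_mul, norm_inv, inv_mul_le_iff₀ hq0]
    have h2 : ‖q x‖ ≤ η / 3 := by
      have h3 := hqx x
      rwa [hC0 x hx, zero_sub, norm_neg] at h3
    nlinarith

end dense

section eval

variable {K : Type v} [CommGroup K] [TopologicalSpace K] [CompactSpace K] [IsTopologicalGroup K]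
  [MeasurableSpace K] [BorelSpace K]
  (μ : Measure K) [μ.IsMulLeftInvariant] [IsProbabilityMeasure μ]

/-- `|g(1)|² ≤ |T| ∫ |g|²` for a trigonometric polynomial with support in `T` -/
theorem eval_le {T : Finset (K →ₜ* Circle)} {g : C(K, ℂ)}
    (hg : g ∈ Submodule.span ℂ (chr '' (T : Set (K →ₜ* Circle)))) :
    ‖g 1‖ ^ 2 ≤ T.card * ∫ x, ‖g x‖ ^ 2 ∂μ := by
  classical
  obtain ⟨c, rfl⟩ := (Submodule.mem_span_image_finset_iff_exists_fun' ℂ).1 hg
  have h1 : ∀ ψ ∈ T, ∫ x, (∑ χ ∈ T, c χ • chr χ : C(K, ℂ)) x * conj (chr ψ x) ∂μ = c ψ := by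
    intro ψ hψ
    have h2 : ∀ x, (∑ χ ∈ T, c χ • chr χ : C(K, ℂ)) x * conj (chr ψ x) =
        ∑ χ ∈ T, c χ * chr (χ * ψ⁻¹) x := by
      intro x
      rw [conj_chr, ContinuousMap.sum_apply, Finset.sum_mul]
      refine Finset.sum_congr rfl fun χ _ => ?_
      rw [ContinuousMap.smul_apply, smul_eq_mul, chr_mul, ContinuousMap.mul_apply, mul_assoc]
    simp_rw [h2]
    rw [integral_finsetSum _ fun χ _ => (integrable_cont μ _).const_mul _]
    rw [Finset.sum_eq_single ψ]
    · rw [integral_const_mul, mul_inv_cancel, integral_chr_one, mul_one]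
    · intro χ _ hχ
      rw [integral_const_mul, integral_chr_eq_zero μ, mul_zero]
      intro h
      exact hχ (mul_inv_eq_one.1 h)
    · intro h
      exact absurd hψ h
  have h3 := bessel μ (∑ χ ∈ T, c χ • chr χ) T
  rw [Finset.sum_congr rfl fun ψ hψ => by rw [h1 ψ hψ]] at h3
  have h4 : (∑ χ ∈ T, c χ • chr χ : C(K, ℂ)) 1 = ∑ χ ∈ T, c χ := by
    rw [ContinuousMap.sum_apply]
    refine Finset.sum_congr rfl fun χ _ => ?_
    rw [ContinuousMap.smul_apply, chr_at_one, smul_eq_mul, mul_one]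
  rw [h4]
  calc ‖∑ χ ∈ T, c χ‖ ^ 2 ≤ (∑ χ ∈ T, ‖c χ‖) ^ 2 :=
        pow_le_pow_left₀ (norm_nonneg _) (norm_sum_le _ _) 2
    _ ≤ T.card * ∑ χ ∈ T, ‖c χ‖ ^ 2 := sq_sum_le_card_mul_sum_sq
    _ ≤ _ := mul_le_mul_of_nonneg_left h3 (Nat.cast_nonneg _)

end eval

section action

variable {S : Type u} {K : Type v} [CommGroup K] [TopologicalSpace K]
  [Monoid S] [MulDistribMulAction S K] [ContinuousConstSMul S K]

theorem trajectory_empty (X : Finset (K →ₜ* Circle)) : trajectory (∅ : Finset S) X = {1} := by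
  ext ψ
  constructor
  · rintro ⟨c, -, rfl⟩
    simp
  · rintro rfl
    exact ⟨fun _ => 1, by simp, by simp⟩

theorem mul_mem_trajectory [DecidableEq S] {F : Finset S} {X : Finset (K →ₜ* Circle)} {s : S}
    (hs : s ∉ F) {a ψ : K →ₜ* Circle} (ha : a ∈ X) (hψ : ψ ∈ trajectory F X) :
    dualAct s a * ψ ∈ trajectory (insert s F) X := by
  obtain ⟨c, hc, rfl⟩ := hψ
  refine ⟨Function.update c s a, ?_, ?_⟩
  · intro t ht
    by_cases hts : t = s
    · subst hts
      simpa using ha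
    · rw [Function.update_of_ne hts]
      exact hc t (Finset.mem_of_mem_insert_of_ne ht hts)
  · rw [Finset.prod_insert hs, Function.update_self]
    congr 1
    refine Finset.prod_congr rfl fun t ht => ?_
    rw [Function.update_of_ne (by rintro rfl; exact hs ht)]

theorem prod_mem_span (F : Finset S) {X : Finset (K →ₜ* Circle)} {p : C(K, ℂ)}
    (hp : p ∈ Submodule.span ℂ (chr '' (X : Set (K →ₜ* Circle)))) :
    ∏ s ∈ F, pull s p ∈ Submodule.span ℂ (chr '' (trajectory F X)) := by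
  classical
  induction F using Finset.induction_on with
  | empty =>
    rw [Finset.prod_empty, trajectory_empty, image_singleton, chr_one]
    exact Submodule.subset_span rfl
  | insert s F hs ih =>
    rw [Finset.prod_insert hs]
    have h1 : pull s p ∈ Submodule.span ℂ (chr '' ((fun a => dualAct s a) '' (X : Set (K →ₜ* Circle)))) := by
      have h2 : (pull s).toLinearMap p ∈ Submodule.map (pull s).toLinearMap
          (Submodule.span ℂ (chr '' (X : Set (K →ₜ* Circle)))) := Submodule.mem_map_of_mem hp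
      rw [Submodule.map_span, image_image] at h2
      rw [image_image]
      exact h2
    have h3 := Submodule.mul_mem_mul h1 ih
    rw [Submodule.span_mul_span] at h3
    refine Submodule.span_mono ?_ h3
    rintro _ ⟨_, ⟨_, ⟨a, ha, rfl⟩, rfl⟩, _, ⟨ψ, hψ, rfl⟩, rfl⟩
    exact ⟨dualAct s a * ψ, mul_mem_trajectory hs ha hψ, chr_mul _ _⟩

end action

end Pool.Agent.V7H48.BT
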