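import Mathlib
import Pool.Agent.V7H48.BT.IneqB
import Pool.Agent.V7H48.BT.IneqA2

/-! The second inequality, conclusion. -/

set_option autoImplicit false
set_option linter.unusedSectionVars false
set_option linter.overlappingInstances false

open Set Filter Topology MeasureTheory
open scoped Pointwise ComplexConjugate

universe u v w

namespace Pool.Agent.V7H48.BT

variable {S : Type u} {K : Type v} [CommGroup K] [TopologicalSpace K] [CompactSpace K]
  [IsTopologicalGroup K] [T2Space K] [Monoid S] [MulDistribMulAction S K]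
  [ContinuousConstSMul S K] [MeasurableSpace K] [BorelSpace K]
  (μ : Measure K) [μ.IsHaarMeasure] [IsProbabilityMeasure μ] [μ.Regular]

theorem exists_eta {D C : ℝ} (hD : 1 < D) :
    ∃ η : ℝ, 0 < η ∧ η < 1 ∧ (1 + η) ^ 2 * (1 + C * η ^ 2) ≤ D := by
  have hc : ContinuousAt (fun η : ℝ => (1 + η) ^ 2 * (1 + C * η ^ 2)) 0 := by fun_prop
  have h1 : ∀ᶠ η in 𝓝 (0 : ℝ), (1 + η) ^ 2 * (1 + C * η ^ 2) < D :=
    hc.eventually_lt_const (by simpa using hD)
  have h2 : ∀ᶠ η in 𝓝[>] (0 : ℝ), (1 + η) ^ 2 * (1 + C * η ^ 2) < D :=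
    h1.filter_mono nhdsWithin_le_nhds
  have h3 : ∀ᶠ η in 𝓝[>] (0 : ℝ), η < 1 :=
    (eventually_lt_nhds zero_lt_one).filter_mono nhdsWithin_le_nhds
  obtain ⟨η, h4, h5, h6⟩ := (h2.and (h3.and self_mem_nhdsWithin)).exists
  exact ⟨η, h6, h5, h4.le⟩

/-- the integral of the product of the functions `1_U(s x) + θ` -/
theorem integral_prod_le [DecidableEq S] (F : Finset S) {U V : Set K} (hU : IsOpen U)
    (E : Finset K)
    (hE : ∀ y : K, ∃ x ∈ E, x⁻¹ * y ∈ U) (hUV : ∀ x ∈ U, ∀ y ∈ U, x⁻¹ * y ∈ V) {θ : ℝ}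
    (hθ : 0 ≤ θ) :
    ∫ x, ∏ s ∈ F, ((U.indicator (fun _ => (1 : ℝ)) (s • x)) + θ) ∂μ ≤
      (1 + E.card * θ) ^ F.card * μ.real (bowen F V) := by
  have h1 : ∀ x : K, ∏ s ∈ F, ((U.indicator (fun _ => (1 : ℝ)) (s • x)) + θ) =
      ∑ G ∈ F.powerset, (bowen G U).indicator (fun _ => θ ^ (F \ G).card) x := by
    intro x
    rw [Finset.prod_add]
    refine Finset.sum_congr rfl fun G _ => ?_
    rw [Finset.prod_const]
    by_cases hx : x ∈ bowen G U
    · rw [Set.indicator_of_mem hx, Finset.prod_eq_one, one_mul]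
      intro s hs
      exact Set.indicator_of_mem (hx s hs) _
    · rw [Set.indicator_of_notMem hx]
      have : ∃ s ∈ G, s • x ∉ U := by
        by_contra hcon
        push Not at hcon
        exact hx hcon
      obtain ⟨s, hs, hsx⟩ := this
      rw [Finset.prod_eq_zero hs (Set.indicator_of_notMem hsx _), zero_mul]
  simp_rw [h1]
  rw [integral_finsetSum _ fun G _ =>
    (integrable_const _).indicator (isOpen_bowen G hU).measurableSet]
  have h2 : ∀ G ∈ F.powerset, ∫ x, (bowen G U).indicator (fun _ => θ ^ (F \ G).card) x ∂μ ≤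
      (E.card * θ) ^ (F \ G).card * μ.real (bowen F V) := by
    intro G hG
    rw [integral_indicator_const _ (isOpen_bowen G hU).measurableSet, smul_eq_mul]
    have h3 := measure_bowen_union_le μ G (F \ G) E hE hUV
    rw [Finset.union_sdiff_of_subset (Finset.mem_powerset.1 hG)] at h3
    calc μ.real (bowen G U) * θ ^ (F \ G).card
        ≤ ((E.card : ℝ) ^ (F \ G).card * μ.real (bowen F V)) * θ ^ (F \ G).card :=
          mul_le_mul_of_nonneg_right h3 (pow_nonneg hθ _)
      _ = _ := by rw [mul_pow]; ring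
  refine (Finset.sum_le_sum h2).trans (le_of_eq ?_)
  rw [← Finset.sum_mul]
  congr 1
  have h4 := Finset.prod_add (fun _ : S => (1 : ℝ)) (fun _ : S => (E.card : ℝ) * θ) F
  simp only [Finset.prod_const, one_pow, one_mul] at h4
  exact h4.symm

include μ in
/-- `N(𝒰_F) ≤ |T_F(X)| D^|F|` -/
theorem ineqB {D : ℝ} (hD : 1 < D) {𝒰 : Set (Set K)} (h𝒰 : IsFiniteOpenCover 𝒰) :
    ∃ X : Finset (K →ₜ* Circle), X.Nonempty ∧ ∀ F : Finset S,
      (coverNum (joinCover F 𝒰) : ℝ) ≤ (trajectory F X).ncard * D ^ F.card := by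
  classical
  obtain ⟨W, hWo, h1W, hW⟩ := exists_lebesgue h𝒰
  obtain ⟨V, hVo, h1V, hVW⟩ := exists_open_diff hWo h1W
  obtain ⟨U, hUo, h1U, hUV⟩ := exists_open_diff hVo h1V
  obtain ⟨E, hE⟩ := exists_translates hUo h1U
  obtain ⟨η, hη0, hη1, hηD⟩ := exists_eta (C := (E.card : ℝ)) hD
  obtain ⟨X, hX, p, hp, hp1, hpb, hpU⟩ := exists_poly μ hUo h1U hη0 hη1
  refine ⟨X, hX, fun F => ?_⟩
  have hN := coverNum_mul_le_one μ F hVo h1V
    (fun x hx y hy => by rw [mul_comm]; exact hVW y hy x hx) hW
  set N : ℝ := (coverNum (joinCover F 𝒰) : ℝ) with hNdef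
  have hN0 : 0 ≤ N := Nat.cast_nonneg _
  set T := (traj_finite F X).toFinset with hT
  have hTcard : ((trajectory F X).ncard : ℝ) = (T.card : ℝ) := by
    rw [Set.ncard_eq_toFinset_card _ (traj_finite F X)]
  rw [hTcard]
  set g : C(K, ℂ) := ∏ s ∈ F, pull s p with hg
  have hgspan : g ∈ Submodule.span ℂ (chr '' (T : Set (K →ₜ* Circle))) := by
    rw [hT, Set.Finite.coe_toFinset]
    exact prod_mem_span F hp
  have hgx : ∀ x, g x = ∏ s ∈ F, p (s • x) := by
    intro x
    rw [hg, ContinuousMap.prod_apply]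
    rfl
  have hg1 : g 1 = 1 := by
    rw [hgx]
    exact Finset.prod_eq_one fun s _ => by rw [smul_one, hp1]
  have h1 := eval_le μ hgspan
  rw [hg1, norm_one, one_pow] at h1
  -- the integral
  have h2 : ∫ x, ‖g x‖ ^ 2 ∂μ ≤ D ^ F.card * μ.real (bowen F V) := by
    have hmeas : Measurable fun x : K => ∏ s ∈ F, ((U.indicator (fun _ => (1 : ℝ)) (s • x)) + η ^ 2) := by
      apply Finset.measurable_fun_prod
      intro s _
      apply Measurable.add_const
      exact (measurable_const.indicator hUo.measurableSet).comp (continuous_const_smul s).measurable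
    have hint : Integrable (fun x : K => ∏ s ∈ F, ((U.indicator (fun _ => (1 : ℝ)) (s • x)) + η ^ 2)) μ := by
      refine Integrable.of_bound hmeas.aestronglyMeasurable (∏ s ∈ F, (1 + η ^ 2)) ?_
      filter_upwards with x
      rw [norm_prod]
      apply Finset.prod_le_prod
      · intro s _
        exact norm_nonneg _
      · intro s _
        have h3 : 0 ≤ U.indicator (fun _ => (1 : ℝ)) (s • x) :=
          Set.indicator_nonneg (fun _ _ => zero_le_one) _
        have h4 : U.indicator (fun _ => (1 : ℝ)) (s • x) ≤ 1 :=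
          Set.indicator_le_self' (fun _ _ => zero_le_one) _
        rw [Real.norm_of_nonneg (by positivity)]
        linarith
    calc ∫ x, ‖g x‖ ^ 2 ∂μ
        ≤ ∫ x, ((1 + η) ^ 2) ^ F.card *
            ∏ s ∈ F, ((U.indicator (fun _ => (1 : ℝ)) (s • x)) + η ^ 2) ∂μ := by
          apply integral_mono
          · exact integrable_real μ (g.continuous.norm.pow 2)
          · exact hint.const_mul _
          · intro x
            simp only
            rw [hgx, norm_prod, ← Finset.prod_pow, ← Finset.prod_const, ← Finset.prod_mul_distrib]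
            apply Finset.prod_le_prod
            · intro s _
              positivity
            · intro s _
              by_cases hs : s • x ∈ U
              · rw [Set.indicator_of_mem hs]
                have h5 := pow_le_pow_left₀ (norm_nonneg _) (hpb (s • x)) 2
                nlinarith [sq_nonneg (1 + η), sq_nonneg η, mul_nonneg (sq_nonneg (1 + η)) (sq_nonneg η)]
              · rw [Set.indicator_of_notMem hs]
                have h5 := pow_le_pow_left₀ (norm_nonneg _) (hpU (s • x) hs) 2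
                nlinarith [mul_nonneg hη0.le (sq_nonneg η), sq_nonneg (η * η)]
      _ = ((1 + η) ^ 2) ^ F.card *
            ∫ x, ∏ s ∈ F, ((U.indicator (fun _ => (1 : ℝ)) (s • x)) + η ^ 2) ∂μ :=
          integral_const_mul _ _
      _ ≤ ((1 + η) ^ 2) ^ F.card * ((1 + E.card * η ^ 2) ^ F.card * μ.real (bowen F V)) := by
          apply mul_le_mul_of_nonneg_left _ (by positivity)
          exact integral_prod_le μ F hUo E hE hUV (sq_nonneg η)
      _ = ((1 + η) ^ 2 * (1 + E.card * η ^ 2)) ^ F.card * μ.real (bowen F V) := by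
          rw [mul_pow]
          ring
      _ ≤ D ^ F.card * μ.real (bowen F V) := by
          apply mul_le_mul_of_nonneg_right _ measureReal_nonneg
          exact pow_le_pow_left₀ (by positivity) hηD _
  have h3 : 1 ≤ (T.card : ℝ) * (D ^ F.card * μ.real (bowen F V)) :=
    h1.trans (mul_le_mul_of_nonneg_left h2 (Nat.cast_nonneg _))
  calc N = N * 1 := (mul_one N).symm
    _ ≤ N * ((T.card : ℝ) * (D ^ F.card * μ.real (bowen F V))) :=
        mul_le_mul_of_nonneg_left h3 hN0
    _ = ((T.card : ℝ) * D ^ F.card) * (N * μ.real (bowen F V)) := by ring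
    _ ≤ ((T.card : ℝ) * D ^ F.card) * 1 := by
        apply mul_le_mul_of_nonneg_left hN
        positivity
    _ = (T.card : ℝ) * D ^ F.card := mul_one _

end Pool.Agent.V7H48.BT
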