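import Mathlib
import Pool.Agent.V7H48.BT.IneqB2

/-! The Bridge Theorem. -/

set_option autoImplicit false
set_option linter.unusedSectionVars false
set_option linter.overlappingInstances false

open Set Filter Topology MeasureTheory

universe u v w

namespace Pool.Agent.V7H48.BT

variable {S : Type u} {K : Type v} [CommGroup K] [TopologicalSpace K] [CompactSpace K]
  [IsTopologicalGroup K] [T2Space K] [Monoid S] [MulDistribMulAction S K]
  [ContinuousConstSMul S K]

theorem traj_nonempty (F : Finset S) {X : Finset (K →ₜ* Circle)} (hX : X.Nonempty) :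
    (trajectory F X).Nonempty := by
  obtain ⟨a, ha⟩ := hX
  exact ⟨_, fun _ => a, fun _ _ => ha, rfl⟩

/-- every algebraic rate is bounded by a topological rate, up to `ε` -/
theorem algRate_le {ε : ℝ} (hε : 0 < ε) {X : Finset (K →ₜ* Circle)} (hX : X.Nonempty) :
    ∃ 𝒰 : Set (Set K), IsFiniteOpenCover 𝒰 ∧ ∀ F : Finset S, F.Nonempty →
      algRate F X ≤ topRate F 𝒰 + ε := by
  let _ : MeasurableSpace K := borel K
  have _ : BorelSpace K := ⟨rfl⟩
  let μ : Measure K := Measure.haarMeasure (⊤ : TopologicalSpace.PositiveCompacts K)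
  have _ : IsProbabilityMeasure μ := by
    constructor
    have := Measure.haarMeasure_self (K₀ := (⊤ : TopologicalSpace.PositiveCompacts K))
    simpa using this
  obtain ⟨𝒰, h𝒰, h⟩ := ineqA (S := S) μ (q := Real.exp (-ε)) (Real.exp_pos _)
    (by rw [Real.exp_lt_one_iff]; linarith) X
  refine ⟨𝒰, h𝒰, fun F hF => ?_⟩
  have h1 := h F
  have hn : (0 : ℝ) < F.card := by exact_mod_cast hF.card_pos
  have hT : (0 : ℝ) < (trajectory F X).ncard := by
    exact_mod_cast (Set.ncard_pos (traj_finite F X)).2 (traj_nonempty F hX)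
  unfold algRate topRate
  have h2 := Real.log_le_log (by positivity) h1
  rw [Real.log_mul hT.ne' (by positivity), Real.log_pow, Real.log_exp] at h2
  rw [div_add' _ _ _ hn.ne']
  apply div_le_div_of_nonneg_right _ hn.le
  linarith

/-- every topological rate is bounded by an algebraic rate, up to `ε` -/
theorem topRate_le {ε : ℝ} (hε : 0 < ε) {𝒰 : Set (Set K)} (h𝒰 : IsFiniteOpenCover 𝒰) :
    ∃ X : Finset (K →ₜ* Circle), X.Nonempty ∧ ∀ F : Finset S, F.Nonempty →
      topRate F 𝒰 ≤ algRate F X + ε := by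
  let _ : MeasurableSpace K := borel K
  have _ : BorelSpace K := ⟨rfl⟩
  let μ : Measure K := Measure.haarMeasure (⊤ : TopologicalSpace.PositiveCompacts K)
  have _ : IsProbabilityMeasure μ := by
    constructor
    have := Measure.haarMeasure_self (K₀ := (⊤ : TopologicalSpace.PositiveCompacts K))
    simpa using this
  obtain ⟨X, hX, h⟩ := ineqB (S := S) μ (D := Real.exp ε) (by rw [Real.one_lt_exp_iff]; exact hε) h𝒰
  refine ⟨X, hX, fun F hF => ?_⟩
  have h1 := h F
  have hn : (0 : ℝ) < F.card := by exact_mod_cast hF.card_pos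
  have hT : (1 : ℝ) ≤ (trajectory F X).ncard := by
    exact_mod_cast (Set.ncard_pos (traj_finite F X)).2 (traj_nonempty F hX)
  unfold algRate topRate
  rw [div_add' _ _ _ hn.ne']
  apply div_le_div_of_nonneg_right _ hn.le
  have h3 : Real.log ((trajectory F X).ncard * Real.exp ε ^ F.card) =
      Real.log (trajectory F X).ncard + ε * F.card := by
    rw [Real.log_mul (by positivity) (by positivity), Real.log_pow, Real.log_exp]
    ring
  rw [← h3]
  rcases Nat.eq_zero_or_pos (coverNum (joinCover F 𝒰)) with h0 | h0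
  · rw [h0, Nat.cast_zero, Real.log_zero, h3]
    have := Real.log_nonneg hT
    positivity
  · exact Real.log_le_log (by exact_mod_cast h0) h1

theorem le_of_forall_add {a b : EReal} (h : ∀ ε : ℝ, 0 < ε → a ≤ b + (ε : EReal)) : a ≤ b := by
  rw [← EReal.le_of_forall_lt_iff_le]
  intro z hz
  induction b with
  | bot =>
    have := h 1 one_pos
    rw [EReal.bot_add] at this
    exact this.trans bot_le
  | top => exact absurd hz (not_lt.2 le_top)
  | coe b =>
    have hb : b < z := EReal.coe_lt_coe_iff.1 hz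
    have := h (z - b) (by linarith)
    rw [← EReal.coe_add] at this
    simpa using this

theorem limsup_le_add {ι : Type w} {l : Filter ι} [l.NeBot] {u v : ι → ℝ} {ε : ℝ}
    (h : ∀ i, u i ≤ v i + ε) :
    limsup (fun i => ((u i : ℝ) : EReal)) l ≤ limsup (fun i => ((v i : ℝ) : EReal)) l + ε := by
  have h1 : limsup (fun i => ((u i : ℝ) : EReal)) l ≤
      limsup ((fun i => ((v i : ℝ) : EReal)) + fun _ => (ε : EReal)) l := by
    refine limsup_le_limsup (Eventually.of_forall fun i => ?_)
    simp only [Pi.add_apply]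
    rw [← EReal.coe_add]
    exact EReal.coe_le_coe_iff.2 (h i)
  have h2 := EReal.limsup_add_le (f := l) (u := fun i => ((v i : ℝ) : EReal))
    (v := fun _ => (ε : EReal)) (Or.inr (by rw [limsup_const]; exact EReal.coe_ne_top _))
    (Or.inr (by rw [limsup_const]; exact EReal.coe_ne_bot _))
  rw [limsup_const] at h2
  exact h1.trans h2

theorem liminf_le_add {ι : Type w} {l : Filter ι} [l.NeBot] {u v : ι → ℝ} {ε : ℝ}
    (h : ∀ i, u i ≤ v i + ε) :
    liminf (fun i => ((u i : ℝ) : EReal)) l ≤ liminf (fun i => ((v i : ℝ) : EReal)) l + ε := by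
  have h1 : liminf (fun i => ((u i : ℝ) : EReal)) l ≤
      liminf ((fun _ => (ε : EReal)) + fun i => ((v i : ℝ) : EReal)) l := by
    refine liminf_le_liminf (Eventually.of_forall fun i => ?_)
    simp only [Pi.add_apply]
    rw [← EReal.coe_add]
    exact EReal.coe_le_coe_iff.2 (by linarith [h i])
  have h2 := EReal.liminf_add_le (f := l) (v := fun i => ((v i : ℝ) : EReal))
    (u := fun _ => (ε : EReal)) (Or.inl (by rw [limsup_const]; exact EReal.coe_ne_bot _))
    (Or.inl (by rw [limsup_const]; exact EReal.coe_ne_top _))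
  rw [limsup_const] at h2
  rw [add_comm (liminf _ _)]
  exact h1.trans h2

theorem topEntropySup_eq {ι : Type w} (l : Filter ι) [l.NeBot] (F : ι → Finset S)
    (hF : ∀ i, (F i).Nonempty) : topEntropySup K F l = algEntropySup K F l := by
  apply le_antisymm
  · refine iSup_le fun 𝒰 => le_of_forall_add fun ε hε => ?_
    obtain ⟨X, hX, h⟩ := topRate_le (S := S) hε 𝒰.2
    refine (limsup_le_add fun i => h (F i) (hF i)).trans (add_le_add_left ?_ _)
    exact le_iSup (fun X : {X : Finset (K →ₜ* Circle) // X.Nonempty} =>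
      limsup (fun i => ((algRate (F i) X.1 : ℝ) : EReal)) l) ⟨X, hX⟩
  · refine iSup_le fun X => le_of_forall_add fun ε hε => ?_
    obtain ⟨𝒰, h𝒰, h⟩ := algRate_le (S := S) hε X.2
    refine (limsup_le_add fun i => h (F i) (hF i)).trans (add_le_add_left ?_ _)
    exact le_iSup (fun 𝒰 : {𝒰 : Set (Set K) // IsFiniteOpenCover 𝒰} =>
      limsup (fun i => ((topRate (F i) 𝒰.1 : ℝ) : EReal)) l) ⟨𝒰, h𝒰⟩

theorem topEntropyInf_eq {ι : Type w} (l : Filter ι) [l.NeBot] (F : ι → Finset S)
    (hF : ∀ i, (F i).Nonempty) : topEntropyInf K F l = algEntropyInf K F l := by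
  apply le_antisymm
  · refine iSup_le fun 𝒰 => le_of_forall_add fun ε hε => ?_
    obtain ⟨X, hX, h⟩ := topRate_le (S := S) hε 𝒰.2
    refine (liminf_le_add fun i => h (F i) (hF i)).trans (add_le_add_left ?_ _)
    exact le_iSup (fun X : {X : Finset (K →ₜ* Circle) // X.Nonempty} =>
      liminf (fun i => ((algRate (F i) X.1 : ℝ) : EReal)) l) ⟨X, hX⟩
  · refine iSup_le fun X => le_of_forall_add fun ε hε => ?_
    obtain ⟨𝒰, h𝒰, h⟩ := algRate_le (S := S) hε X.2
    refine (liminf_le_add fun i => h (F i) (hF i)).trans (add_le_add_left ?_ _)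
    exact le_iSup (fun 𝒰 : {𝒰 : Set (Set K) // IsFiniteOpenCover 𝒰} =>
      liminf (fun i => ((topRate (F i) 𝒰.1 : ℝ) : EReal)) l) ⟨𝒰, h𝒰⟩

theorem hasTop_sup {ι : Type w} {l : Filter ι} [l.NeBot] {F : ι → Finset S} {h : EReal}
    (hh : HasTopEntropy K F l h) : topEntropySup K F l = h := by
  obtain ⟨η, hη, rfl⟩ := hh
  refine iSup_congr fun 𝒰 => ?_
  exact ((continuous_coe_real_ereal.tendsto _).comp (hη 𝒰)).limsup_eq

theorem hasAlg_sup {ι : Type w} {l : Filter ι} [l.NeBot] {F : ι → Finset S} {h : EReal}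
    (hh : HasAlgEntropy K F l h) : algEntropySup K F l = h := by
  obtain ⟨η, hη, rfl⟩ := hh
  refine iSup_congr fun X => ?_
  exact ((continuous_coe_real_ereal.tendsto _).comp (hη X)).limsup_eq

theorem has_eq {ι : Type w} {l : Filter ι} [l.NeBot] {F : ι → Finset S}
    (hF : ∀ i, (F i).Nonempty) {h h' : EReal}
    (hh : HasTopEntropy K F l h) (hh' : HasAlgEntropy K F l h') : h = h' := by
  rw [← hasTop_sup hh, ← hasAlg_sup hh', topEntropySup_eq l F hF]

end Pool.Agent.V7H48.BT
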